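import Pool.Agent.Q124.NCay.Count
import Pool.Agent.Q124.NCay.Props

/-!
# Two-ended vertex-transitive graphs of degree 7 that are not `n`-Cayley

A vertex of `G n` is an integer `i` and a tuple of `n` vertices of the Petersen graph indexed by the
integers modulo `n`.  It is adjacent to the vertices with the same tuple and with the integers
`i ± 1`, `i ± 2`, and to the vertices with the same integer in which the `i`-th vertex of the tuple
has been moved along an edge of the Petersen graph.

The edges of the first kind are the edges in triangles.  So all automorphisms are of the form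
`(i, x) ↦ (± i + t, c x)`, and if `± i + t = i`, then `c` is a product of automorphisms of the
Petersen graph.  Every involutive automorphism of the Petersen graph fixes a vertex.  So a group
`Γ` acting freely on `G n` has no involutions which map every layer to itself.  By Cauchy's theorem
its subgroup of the elements mapping every layer to itself has odd order.  This order divides
`10 ^ n`, the number of vertices of a layer, so that it is at most `5 ^ n`.  Therefore `Γ` has at
least `2 ^ (n - 1)` orbits.
-/

namespace Pool.Agent.Results.MP_e6b5d0_co.NotNCayley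

open Q124.NCay

/-- The graph `G` is `n`-Cayley: some group of automorphisms acts freely on the vertices and has
exactly `n` orbits. -/
def NCayley {V : Type*} (G : SimpleGraph V) (n : ℕ) : Prop :=
  ∃ Γ : Subgroup (G ≃g G), (∀ γ ∈ Γ, ∀ v, γ v = v → γ = 1) ∧
    {O : Set V | ∃ v, O = {w | ∃ γ ∈ Γ, γ v = w}}.encard = n

/-- **There is no function `f` such that all vertex-transitive `k`-regular graphs with two ends are
`f k`-Cayley: for every `N` there is a 7-regular one which is not `n`-Cayley for any `n ≤ N`.** -/
theorem result : (∀ N : ℕ, ∃ (V : Type) (G : SimpleGraph V), G.Connected ∧ VertexTransitive G ∧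
      (∀ v, (G.neighborSet v).ncard = 7) ∧ TwoEnded G ∧ ∀ n ≤ N, ¬ NCayley G n) ∧
    ¬ ∃ f : ℕ → ℕ, ∀ (k : ℕ) (V : Type) (G : SimpleGraph V), G.Connected → VertexTransitive G →
      1 ≤ k → (∀ v, (G.neighborSet v).ncard = k) → TwoEnded G → NCayley G (f k) := by
  have h1 : ∀ N : ℕ, ∃ (V : Type) (G : SimpleGraph V), G.Connected ∧ VertexTransitive G ∧
      (∀ v, (G.neighborSet v).ncard = 7) ∧ TwoEnded G ∧ ∀ n ≤ N, ¬ NCayley G n := by
    intro N
    have : NeZero (N + 2) := ⟨by omega⟩
    refine ⟨GV (N + 2), G (N + 2), G_connected, G_transitive, G_regular, G_twoEnded, ?_⟩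
    rintro n hn ⟨Γ, hfree, horb⟩
    have h2 := orbits_ge hfree horb
    have h3 : N < 2 ^ N := Nat.lt_two_pow_self
    have h4 : 2 ^ (N + 2) = 4 * 2 ^ N := by ring
    omega
  refine ⟨h1, ?_⟩
  rintro ⟨f, hf⟩
  obtain ⟨V, G, h2, h3, h4, h5, h6⟩ := h1 (f 7)
  exact h6 (f 7) le_rfl (hf 7 V G h2 h3 (by norm_num) h4 h5)

end Pool.Agent.Results.MP_e6b5d0_co.NotNCayley
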